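import Pool.Agent.Lib.MP_bae66e_nt.Mg.G117
import Pool.Agent.Lib.MP_bae66e_nt.Mg.G115
import Pool.Agent.Lib.MP_bae66e_nt.Mg.G116
import Pool.Agent.Lib.MP_bae66e_nt.Mg.G113
import Pool.Agent.Lib.MP_bae66e_nt.E3.Q3
import Pool.Agent.Lib.MP_bae66e_nt.E3.N3e
import Pool.Agent.Lib.MP_bae66e_nt.Mg.G029
import Pool.Agent.Lib.MP_bae66e_nt.Mg.G110

/-!
# Assembly
-/

set_option autoImplicit false

namespace Pool.Agent.Lib.MP_bae66e_nt.TF

open Finset MeasureTheory Real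
open Pool.Agent.E3
open Pool.Agent.Lib.MP_bae66e_nt.LL (fP gW)
open Pool.Agent.Lib.MP_bae66e_nt.AC (Sg VV)
open Pool.Agent.Lib.MP_bae66e_nt.AP3 (prI mem_prI)

/-- The Hardy-Littlewood formula for almost all even `m = p + r₁ r₂ q`. -/
theorem final_t : ∃ a c : ℝ, 3 ≤ a ∧ 2 ≤ c ∧ FINT a c := by
  obtain ⟨θ, hθ, -, hT⟩ := t3q
  obtain ⟨a, c, ha, hc, hcore⟩ := core2_of θ hθ hT nlv (mv1 slp slf)
  exact ⟨a, c, ha, hc, fint_of a c ha hc (countt_of a c ha hc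
    (firt_of a c ha hc (wint_of a c ha hc hcore) (vart_of slp a c ha hc)))⟩

end Pool.Agent.Lib.MP_bae66e_nt.TF
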