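import Pool.Agent.Lib.MP_bae66e_nt.Mg.G113
import Pool.Agent.Lib.MP_bae66e_nt.Mg.G002

/-!
# The number of representations as a number of triples
-/

set_option autoImplicit false

namespace Pool.Agent.Lib.MP_bae66e_nt.TF

open Finset MeasureTheory Real
open Pool.Agent.E3
open Pool.Agent.Lib.MP_bae66e_nt.AP3 (prI mem_prI)

/-- for one `s` -/
private theorem Fin2_one (m t s : ℕ) (hs : 0 < s) :
    (s ∣ m - t ∧ ((m - t) / s).Prime) ↔ ∃ q : ℕ, q.Prime ∧ m = t + s * q := by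
  constructor
  · rintro ⟨⟨q, hq⟩, h2⟩
    rw [hq, Nat.mul_div_cancel_left q hs] at h2
    refine ⟨q, h2, ?_⟩
    have h3 : 0 < s * q := Nat.mul_pos hs h2.pos
    omega
  · rintro ⟨q, hq, hm⟩
    have h1 : m - t = s * q := by omega
    rw [h1, Nat.mul_div_cancel_left q hs]
    exact ⟨dvd_mul_right _ _, hq⟩

open Classical in
theorem cntT_eq (R ℓ H m : ℕ) (h : 2 * R ≤ R ^ ℓ) : cntT R ℓ H m =
    (#{x ∈ Icc 1 H ×ˢ IS R ×ˢ IS (R ^ ℓ) | x.1.Prime ∧ ∃ q : ℕ, q.Prime ∧ m = x.1 + x.2.1 * x.2.2 * q} : ℝ) := by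
  unfold cntT
  rw [sum_SS R (R ^ ℓ) h]
  rw [Finset.card_filter, Finset.sum_product]
  push_cast
  have e1 : ∀ t ∈ Icc 1 H, (∑ x ∈ IS R ×ˢ IS (R ^ ℓ),
      (if t.Prime ∧ ∃ q : ℕ, q.Prime ∧ m = t + x.1 * x.2 * q then (1 : ℝ) else 0)) =
      ∑ r ∈ IS R, ∑ r' ∈ IS (R ^ ℓ), (if t.Prime ∧ r * r' ∣ m - t ∧ ((m - t) / (r * r')).Prime then (1 : ℝ) else 0) := by
    intro t _
    rw [Finset.sum_product]
    refine Finset.sum_congr rfl fun r hr => Finset.sum_congr rfl fun r' hr' => ?_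
    have h1 := (mem_prI.mp hr).2.pos
    have h2 := (mem_prI.mp hr').2.pos
    have h3 := Fin2_one m t (r * r') (Nat.mul_pos h1 h2)
    simp only [h3]
  have e2 : ∑ t ∈ Icc 1 H, ∑ r ∈ IS R, ∑ r' ∈ IS (R ^ ℓ),
      (if t.Prime ∧ r * r' ∣ m - t ∧ ((m - t) / (r * r')).Prime then (1 : ℝ) else 0) =
      ∑ r ∈ IS R, ∑ r' ∈ IS (R ^ ℓ), ∑ t ∈ Icc 1 H,
        (if t.Prime ∧ r * r' ∣ m - t ∧ ((m - t) / (r * r')).Prime then (1 : ℝ) else 0) := by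
    rw [Finset.sum_comm]
    exact Finset.sum_congr rfl fun r _ => Finset.sum_comm
  rw [Finset.sum_congr rfl e1, e2]
  refine Finset.sum_congr rfl fun r _ => Finset.sum_congr rfl fun r' _ => ?_
  rw [Finset.card_filter]
  push_cast
  rfl

theorem BT_eq (R ℓ : ℕ) (h : 2 * R ≤ R ^ ℓ) :
    BT R ℓ = (∑ r ∈ IS R, 1 / (r : ℝ)) * ∑ r ∈ IS (R ^ ℓ), 1 / (r : ℝ) := by
  unfold BT
  rw [sum_SS R (R ^ ℓ) h, Finset.sum_mul_sum]
  refine Finset.sum_congr rfl fun r _ => Finset.sum_congr rfl fun r' _ => ?_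
  push_cast
  rw [one_div_mul_one_div]

theorem two_le (a c : ℝ) (ha : 3 ≤ a) : ∃ N₀ : ℕ, ∀ N : ℕ, N₀ ≤ N → ∀ R ℓ : ℕ,
    (R : ℝ) ≤ (ll N) ^ c / 2 → (Real.log N) ^ a ≤ (R : ℝ) ^ ℓ → 2 * R ≤ R ^ ℓ := by
  have hL : Filter.Tendsto (fun N : ℕ => Real.log (N : ℝ)) Filter.atTop Filter.atTop :=
    Real.tendsto_log_atTop.comp tendsto_natCast_atTop_atTop
  have h3 : ∀ᶠ x : ℝ in Filter.atTop, ‖Real.log x ^ c‖ ≤ 1 * ‖x ^ a‖ :=
    (isLittleO_log_rpow_rpow_atTop c (by linarith : (0 : ℝ) < a)).bound one_pos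
  have h4 := (hL.eventually h3).and (hL.eventually_ge_atTop 3)
  obtain ⟨N₀, hN₀⟩ := Filter.eventually_atTop.1 h4
  refine ⟨N₀, fun N hN R ℓ h1 h2 => ?_⟩
  obtain ⟨g1, g2⟩ := hN₀ N hN
  have g3 : 0 ≤ Real.log (Real.log (N : ℝ)) := Real.log_nonneg (by linarith)
  rw [Real.norm_of_nonneg (by positivity), Real.norm_of_nonneg (by positivity), one_mul] at g1
  have g4 : (2 * R : ℝ) ≤ (R : ℝ) ^ ℓ := by
    refine le_trans ?_ (g1.trans h2)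
    have : (ll N) ^ c = Real.log (Real.log (N : ℝ)) ^ c := rfl
    rw [← this]
    linarith
  exact_mod_cast g4

end Pool.Agent.Lib.MP_bae66e_nt.TF
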